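import Pool.Agent.L0h98.KC.Def

/-!
# Project KC, CNF: each array comes from the same number of configurations
-/

set_option autoImplicit false

namespace Pool.Agent.L0h72.KC

open Finset Classical Pool.Agent.L0h98.KC
open Pool.Agent.N404.LF (cnt)

/-- an equivalence over a base, from equal fiber cardinalities -/
lemma exists_over {Y E W : Type} [Finite Y] [Finite E] (f : Y → W) (g : E → W)
    (h : ∀ w, Nat.card {y // f y = w} = Nat.card {e // g e = w}) :
    ∃ e : Y ≃ E, ∀ y, g (e y) = f y := by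
  have h1 : ∀ w, Nonempty ({y // f y = w} ≃ {e // g e = w}) := fun w =>
    (Finite.card_eq).1 (h w)
  exact ⟨Equiv.ofFiberEquiv fun w => (h1 w).some, fun y => Equiv.ofFiberEquiv_map _ _⟩

/-- the count for one class -/
lemma one_class {Y R V : Type} [Finite Y] (a : Y → R) (b : Y → V) (E : Set (R × V))
    (hE : E.Finite)
    (h1 : ∀ i, Nat.card {y // a y = i} = Nat.card {e : E // e.1.1 = i})
    (h2 : ∀ v, Nat.card {y // b y = v} = Nat.card {e : E // e.1.2 = v}) :
    Nat.card {π : Equiv.Perm Y // (∀ p, (a p, b (π p)) ∈ E) ∧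
      Function.Injective fun p => (a p, b (π p))} =
    Nat.card {g : Equiv.Perm Y // ∀ p, a (g p) = a p} *
      Nat.card {g : Equiv.Perm Y // ∀ p, b (g p) = b p} := by
  have : Finite E := hE
  obtain ⟨e0, he0⟩ := exists_over a (fun e : E => e.1.1) h1
  obtain ⟨f0, hf0⟩ := exists_over b (fun e : E => e.1.2) h2
  rw [← Nat.card_prod]
  have hinv : ∀ h : {g : Equiv.Perm Y // ∀ p, b (g p) = b p}, ∀ x, b (h.1.symm x) = b x := by
    intro h x
    have h3 := h.2 (h.1.symm x)
    rw [Equiv.apply_symm_apply] at h3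
    exact h3.symm
  have hpos : ∀ (g : {g : Equiv.Perm Y // ∀ p, a (g p) = a p})
      (h : {g : Equiv.Perm Y // ∀ p, b (g p) = b p}) (p : Y),
      (a p, b (((g.1.trans e0).trans (f0.symm.trans h.1.symm)) p)) = (e0 (g.1 p)).1 := by
    intro g h p
    have h3 : b (((g.1.trans e0).trans (f0.symm.trans h.1.symm)) p) = (e0 (g.1 p)).1.2 := by
      rw [Equiv.trans_apply, Equiv.trans_apply, Equiv.trans_apply, hinv h]
      have h4 := hf0 (f0.symm (e0 (g.1 p)))
      rw [Equiv.apply_symm_apply] at h4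
      exact h4.symm
    rw [h3, ← g.2 p, ← he0 (g.1 p)]
  symm
  refine Nat.card_congr (Equiv.ofBijective (fun q => ⟨(q.1.1.trans e0).trans
    (f0.symm.trans q.2.1.symm), fun p => ?_, ?_⟩) ⟨?_, ?_⟩)
  · rw [hpos q.1 q.2 p]
    exact (e0 (q.1.1 p)).2
  · intro p p' hp
    dsimp only at hp
    rw [hpos q.1 q.2 p, hpos q.1 q.2 p'] at hp
    exact q.1.1.injective (e0.injective (Subtype.ext hp))
  · rintro ⟨g, h⟩ ⟨g', h'⟩ hq
    have hq1 : (g.1.trans e0).trans (f0.symm.trans h.1.symm) =
        (g'.1.trans e0).trans (f0.symm.trans h'.1.symm) := congrArg Subtype.val hq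
    have hg : g = g' := by
      apply Subtype.ext
      ext p
      have h3 := hpos g h p
      rw [hq1, hpos g' h' p] at h3
      exact (e0.injective (Subtype.ext h3)).symm
    subst hg
    have hh : h = h' := by
      apply Subtype.ext
      have h3 : ∀ x, h.1.symm x = h'.1.symm x := by
        intro x
        have h4 := congrArg (fun π : Equiv.Perm Y => π (g.1.symm (e0.symm (f0 x)))) hq1
        simpa using h4
      have h5 : h.1.symm = h'.1.symm := Equiv.ext h3
      rw [← Equiv.symm_symm h.1, h5, Equiv.symm_symm]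
    rw [hh]
  · rintro ⟨π, hπ1, hπ2⟩
    have hb : Function.Bijective fun p : Y => (⟨(a p, b (π p)), hπ1 p⟩ : E) := by
      rw [Nat.bijective_iff_injective_and_card]
      refine ⟨fun p p' hp => hπ2 (congrArg Subtype.val hp), Nat.card_congr e0⟩
    set Ee : Y ≃ E := Equiv.ofBijective _ hb with hEe
    have hE1 : ∀ p, (Ee p).1 = (a p, b (π p)) := fun p => rfl
    refine ⟨⟨⟨Ee.trans e0.symm, fun p => ?_⟩, ⟨π.symm.trans (Ee.trans f0.symm), fun p => ?_⟩⟩, ?_⟩
    · have h3 := he0 ((Ee.trans e0.symm) p)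
      rw [← h3, Equiv.trans_apply, Equiv.apply_symm_apply, hE1]
    · have h3 := hf0 ((π.symm.trans (Ee.trans f0.symm)) p)
      rw [← h3, Equiv.trans_apply, Equiv.trans_apply, Equiv.apply_symm_apply, hE1,
        Equiv.apply_symm_apply]
    · apply Subtype.ext
      ext p
      simp

lemma card_filter_nat {Y : Type} [Fintype Y] (P : Y → Prop) [DecidablePred P] :
    (univ.filter P).card = Nat.card {x // P x} := by
  rw [Nat.card_eq_fintype_card, Fintype.card_subtype]

lemma cnt_nat {Y W : Type} [Fintype Y] (f : Y → W) (w : W) :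
    cnt f w = Nat.card {x // f x = w} := by
  unfold cnt
  rw [card_filter_nat]

/-- **CNF** -/
theorem t_CNF : S_CNF := by
  intro S R V _ _ _ _ X _ _ a b
  refine ⟨∏ s, (Nat.card {g : Equiv.Perm (X s) // ∀ p, a s (g p) = a s p} *
    Nat.card {g : Equiv.Perm (X s) // ∀ p, b s (g p) = b s p}), ?_, ?_, ?_⟩
  · refine Finset.prod_pos fun s _ => Nat.mul_pos ?_ ?_
    · have : Nonempty {g : Equiv.Perm (X s) // ∀ p, a s (g p) = a s p} := ⟨⟨1, fun p => rfl⟩⟩
      exact Nat.card_pos
    · have : Nonempty {g : Equiv.Perm (X s) // ∀ p, b s (g p) = b s p} := ⟨⟨1, fun p => rfl⟩⟩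
      exact Nat.card_pos
  · intro A hA
    obtain ⟨hA1, hA2⟩ := (mem_filter.1 hA).2
    set E : S → Set (R × V) := fun s => {e | A e.1 e.2 = some s} with hE
    have hmE : ∀ s (e : R × V), e ∈ E s ↔ A e.1 e.2 = some s := fun s e => Iff.rfl
    have hEf : ∀ s, (E s).Finite := fun s => Set.toFinite _
    have hc1 : ∀ s i, Nat.card {y // a s y = i} = Nat.card {e : E s // e.1.1 = i} := by
      intro s i
      rw [← cnt_nat]
      have h3 : _ = cnt (a s) i := hA1 i s
      rw [card_filter_nat] at h3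
      rw [← h3]
      refine Nat.card_congr ⟨fun v => ⟨⟨(i, v.1), v.2⟩, rfl⟩, fun e => ⟨e.1.1.2, ?_⟩, ?_, ?_⟩
      · have h4 := e.1.2
        rw [hmE, e.2] at h4
        exact h4
      · intro v
        rfl
      · rintro ⟨⟨⟨i', v⟩, h4⟩, h5⟩
        dsimp only at h5
        subst h5
        rfl
    have hc2 : ∀ s v, Nat.card {y // b s y = v} = Nat.card {e : E s // e.1.2 = v} := by
      intro s v
      rw [← cnt_nat]
      have h3 : _ = cnt (b s) v := hA2 v s
      rw [card_filter_nat] at h3
      rw [← h3]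
      refine Nat.card_congr ⟨fun i => ⟨⟨(i.1, v), i.2⟩, rfl⟩, fun e => ⟨e.1.1.1, ?_⟩, ?_, ?_⟩
      · have h4 := e.1.2
        rw [hmE, e.2] at h4
        exact h4
      · intro v
        rfl
      · rintro ⟨⟨⟨i', v⟩, h4⟩, h5⟩
        dsimp only at h5
        subst h5
        rfl
    have hkey := fun s => one_class (a s) (b s) (E s) (hEf s) (hc1 s) (hc2 s)
    rw [Finset.prod_congr rfl fun s _ => (hkey s).symm, ← Nat.card_pi, card_filter_nat]
    refine Nat.card_congr ((Equiv.subtypeEquivRight fun π => ?_).trans Equiv.subtypePiEquivPi)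
    constructor
    · rintro ⟨hs, hm⟩ s
      refine ⟨fun p => (hm _ _ _).2 ⟨p, rfl, rfl⟩, fun p p' hp => ?_⟩
      have h3 := hs ⟨s, p⟩ ⟨s, p'⟩ (congrArg Prod.fst hp) (congrArg Prod.snd hp)
      simpa using h3
    · intro h
      have hsurj : ∀ s (e : E s), ∃ p, (a s p, b s (π s p)) = e.1 := by
        intro s e
        have hb : Function.Bijective fun p : X s =>
            (⟨(a s p, b s (π s p)), (h s).1 p⟩ : E s) := by
          rw [Nat.bijective_iff_injective_and_card]
          refine ⟨fun p p' hp => (h s).2 (congrArg Subtype.val hp), ?_⟩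
          obtain ⟨e0, _⟩ := exists_over (a s) (fun e : E s => e.1.1) (hc1 s)
          exact Nat.card_congr e0
        obtain ⟨p, hp⟩ := hb.2 e
        exact ⟨p, congrArg Subtype.val hp⟩
      constructor
      · rintro ⟨s, p⟩ ⟨s', p'⟩ h1 h2
        dsimp only at h1 h2
        have h3 : A (a s p) (b s (π s p)) = some s := (h s).1 p
        have h4 : A (a s' p') (b s' (π s' p')) = some s' := (h s').1 p'
        rw [← h1, ← h2, h3] at h4
        have h5 : s = s' := Option.some.inj h4
        subst h5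
        have h6 := (h s).2 (a₁ := p) (a₂ := p') (Prod.ext h1 h2)
        rw [h6]
      · intro i v s
        constructor
        · intro h1
          obtain ⟨p, hp⟩ := hsurj s ⟨(i, v), h1⟩
          exact ⟨p, congrArg Prod.fst hp, congrArg Prod.snd hp⟩
        · rintro ⟨p, rfl, rfl⟩
          exact (h s).1 p
  · intro π hπ
    set A : R → V → Option S := fun i v =>
      if h : ∃ q : Σ s, X s, a q.1 q.2 = i ∧ b q.1 (π q.1 q.2) = v then some h.choose.1 else none
      with hA
    have hM : Match a b π A := by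
      intro i v s
      constructor
      · intro h1
        by_cases h : ∃ q : Σ s, X s, a q.1 q.2 = i ∧ b q.1 (π q.1 q.2) = v
        · have h2 : A i v = some h.choose.1 := by
            simp only [hA]
            rw [dif_pos h]
          rw [h2] at h1
          have h3 := Option.some.inj h1
          obtain ⟨h4, h5⟩ := h.choose_spec
          subst h3
          exact ⟨h.choose.2, h4, h5⟩
        · exfalso
          have h2 : A i v = none := by
            simp only [hA]
            rw [dif_neg h]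
          rw [h2] at h1
          exact absurd h1 (by simp)
      · rintro ⟨p, hp1, hp2⟩
        have h : ∃ q : Σ s, X s, a q.1 q.2 = i ∧ b q.1 (π q.1 q.2) = v := ⟨⟨s, p⟩, hp1, hp2⟩
        have h2 : A i v = some h.choose.1 := by
          simp only [hA]
          rw [dif_pos h]
        rw [h2]
        obtain ⟨h4, h5⟩ := h.choose_spec
        have h6 := hπ h.choose ⟨s, p⟩ (h4.trans hp1.symm) (h5.trans hp2.symm)
        rw [h6]
    refine ⟨A, mem_filter.2 ⟨mem_univ _, fun i s => ?_, fun v s => ?_⟩, hM⟩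
    · show _ = cnt (a s) i
      rw [cnt_nat, card_filter_nat]
      symm
      refine Nat.card_congr (Equiv.ofBijective (fun p => ⟨b s (π s p.1),
        (hM _ _ _).2 ⟨p.1, p.2, rfl⟩⟩) ⟨?_, ?_⟩)
      · rintro ⟨p, hp⟩ ⟨p', hp'⟩ h
        have h1 : b s (π s p) = b s (π s p') := congrArg Subtype.val h
        have h2 := hπ ⟨s, p⟩ ⟨s, p'⟩ (hp.trans hp'.symm) h1
        apply Subtype.ext
        simpa using h2
      · rintro ⟨v, hv⟩
        obtain ⟨p, hp1, hp2⟩ := (hM _ _ _).1 hv
        exact ⟨⟨p, hp1⟩, Subtype.ext hp2⟩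
    · show _ = cnt (b s) v
      rw [cnt_nat, card_filter_nat]
      symm
      have e1 : {x // b s x = v} ≃ {x // b s (π s x) = v} :=
        ((π s).subtypeEquiv fun x => Iff.rfl).symm
      refine Nat.card_congr (e1.trans (Equiv.ofBijective (fun p => ⟨a s p.1,
        (hM _ _ _).2 ⟨p.1, rfl, p.2⟩⟩) ⟨?_, ?_⟩))
      · rintro ⟨p, hp⟩ ⟨p', hp'⟩ h
        have h1 : a s p = a s p' := congrArg Subtype.val h
        have h2 := hπ ⟨s, p⟩ ⟨s, p'⟩ h1 (hp.trans hp'.symm)
        apply Subtype.ext
        simpa using h2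
      · rintro ⟨i, hi⟩
        obtain ⟨p, hp1, hp2⟩ := (hM _ _ _).1 hi
        exact ⟨⟨p, hp2⟩, Subtype.ext hp1⟩

end Pool.Agent.L0h72.KC
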