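import Pool.Agent.L0h98.KC.Def
import Pool.Agent.N342.LF_ISO

/-!
# Project KC, CONC: concentration for products of permutation groups of different sizes
-/

set_option autoImplicit false

namespace Pool.Agent.L0h72.KC

open Finset Classical Pool.Agent.N342.LFI Pool.Agent.L0h98.KC

theorem con_permY (Y : Type) [Fintype Y] [DecidableEq Y] :
    Con (Equiv.Perm Y) (fun π π' => (h1 π π' : ℝ)) (9 * Fintype.card Y / 2) := by
  refine con_equiv (Equiv.permCongr (Fintype.equivFin Y).symm) (con_perm (Fintype.card Y)) ?_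
  intro π π'
  have h : h1 (Equiv.permCongr (Fintype.equivFin Y).symm π)
      (Equiv.permCongr (Fintype.equivFin Y).symm π') ≤ h1 π π' := by
    unfold h1
    refine card_le_card_of_injOn (fun y => (Fintype.equivFin Y).symm.symm y) ?_ ?_
    · intro y hy
      simp only [coe_filter, mem_univ, true_and, Set.mem_ofPred_eq] at hy ⊢
      intro hc
      apply hy
      rw [Equiv.permCongr_apply, Equiv.permCongr_apply, hc]
    · intro y _ y' _ hyy
      exact (Fintype.equivFin Y).symm.symm.injective hyy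
  exact_mod_cast h

theorem con_piD (n : ℕ) : ∀ (Y : Fin n → Type) [∀ i, Fintype (Y i)] (d : ∀ i, Y i → Y i → ℝ)
    (V : Fin n → ℝ), (∀ i, Con (Y i) (d i) (V i)) → (∀ i y, d i y y = 0) →
    Con (∀ i, Y i) (fun f g => ∑ i, d i (f i) (g i)) (∑ i, V i) := by
  induction n with
  | zero =>
    intro Y _ d V h h0
    have h2 : Con (∀ i : Fin 0, Y i) (fun f g => ∑ i, d i (f i) (g i)) 0 := con_sub
    simpa using h2
  | succ n ih =>
    intro Y _ d V h h0
    have h3 : Con (Y 0 × (∀ i : Fin n, Y i.succ))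
        (fun a b => d 0 a.1 b.1 + ∑ i : Fin n, d i.succ (a.2 i) (b.2 i))
        (V 0 + ∑ i : Fin n, V i.succ) :=
      con_prod (h 0) (ih (fun i => Y i.succ) (fun i => d i.succ) (fun i => V i.succ)
        (fun i => h _) (fun i => h0 _)) (fun y y' z => by simp [h0]) (fun y z z' => by simp [h0])
    rw [Fin.sum_univ_succ]
    exact con_equiv (Fin.consEquiv Y) h3 (fun a b => by
      rw [Fin.sum_univ_succ]
      simp [Fin.consEquiv])

theorem con_piS (S : Type) [Fintype S] [DecidableEq S] (Y : S → Type) [∀ i, Fintype (Y i)]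
    (d : ∀ i, Y i → Y i → ℝ) (V : S → ℝ) (h : ∀ i, Con (Y i) (d i) (V i))
    (h0 : ∀ i y, d i y y = 0) :
    Con (∀ i, Y i) (fun f g => ∑ i, d i (f i) (g i)) (∑ i, V i) := by
  set e := (Fintype.equivFin S).symm with he
  have h3 := con_piD (Fintype.card S) (fun i => Y (e i)) (fun i => d (e i)) (fun i => V (e i))
    (fun i => h _) (fun i => h0 _)
  rw [Equiv.sum_comp e V] at h3
  refine con_equiv (Equiv.piCongrLeft Y e) h3 ?_
  intro f g
  rw [← Equiv.sum_comp e]
  refine le_of_eq (Finset.sum_congr rfl fun i _ => ?_)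
  rw [Equiv.piCongrLeft_apply_apply, Equiv.piCongrLeft_apply_apply]

section

variable {S : Type} [Fintype S] [DecidableEq S] {X : S → Type} [∀ s, Fintype (X s)]
  [∀ s, DecidableEq (X s)]

omit [DecidableEq S] [∀ s, DecidableEq (X s)] in
theorem hdc_sum (π π' : Cf X) : hdc π π' = ∑ s, h1 (π s) (π' s) := by
  unfold hdc h1
  rw [Finset.card_filter, Fintype.sum_sigma]
  refine Finset.sum_congr rfl fun i _ => ?_
  rw [Finset.card_filter]

omit [DecidableEq S] [∀ s, DecidableEq (X s)] in
theorem hdc_tri (π ρ σ : Cf X) : hdc π σ ≤ hdc π ρ + hdc ρ σ := by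
  unfold hdc
  refine (Finset.card_le_card ?_).trans (Finset.card_union_le _ _)
  intro p hp
  simp only [Finset.mem_filter, Finset.mem_univ, true_and, Finset.mem_union] at hp ⊢
  by_contra hcon
  push Not at hcon
  exact hp (hcon.1.trans hcon.2)

theorem con_cf : Con (Cf X) (fun π π' => (hdc π π' : ℝ))
    (∑ s, (9 * (Fintype.card (X s) : ℝ) / 2)) := by
  have h3 := con_piS S (fun s => Equiv.Perm (X s)) (fun s π π' => (h1 π π' : ℝ))
    (fun s => 9 * (Fintype.card (X s) : ℝ) / 2) (fun s => con_permY (X s))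
    (fun s y => by simp [h1])
  have h4 : (fun π π' : Cf X => (hdc π π' : ℝ)) =
      fun π π' : Cf X => ∑ s, (h1 (π s) (π' s) : ℝ) := by
    funext π π'
    rw [hdc_sum]
    push_cast
    rfl
  rw [h4]
  exact h3

end

theorem t_CONC : S_CONC := by
  intro S _ _ X _ _ A t ht
  set B := univ.filter fun π : Cf X => ∀ π' ∈ A, t ≤ (hdc π π' : ℝ) with hB
  rcases A.eq_empty_or_nonempty with hA | hA
  · rw [hA]
    simp only [Finset.card_empty, Nat.cast_zero, zero_mul]
    positivity
  set F : (Cf X) → ℝ := fun π => A.inf' hA (fun π' => (hdc π π' : ℝ)) with hF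
  have hLip : ∀ x y, F x - F y ≤ (hdc x y : ℝ) := by
    intro x y
    obtain ⟨z, hz, hz1⟩ := Finset.exists_mem_eq_inf' hA (fun π' => (hdc y π' : ℝ))
    have h2 : F x ≤ (hdc x z : ℝ) := Finset.inf'_le (fun π' => (hdc x π' : ℝ)) hz
    have h3 : F y = (hdc y z : ℝ) := hz1
    have h4 : ((hdc x z : ℕ) : ℝ) ≤ hdc x y + hdc y z := by exact_mod_cast hdc_tri x y z
    linarith
  have hF0 : ∀ x ∈ A, F x ≤ 0 := by
    intro x hx
    have h2 : F x ≤ (hdc x x : ℝ) := Finset.inf'_le (fun π' => (hdc x π' : ℝ)) hx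
    have h3 : hdc x x = 0 := by simp [hdc]
    rw [h3] at h2
    simpa using h2
  have hFt : ∀ x ∈ B, t ≤ F x := by
    intro x hx
    rw [hB, Finset.mem_filter] at hx
    exact Finset.le_inf' hA _ hx.2
  set N : ℝ := (Fintype.card (Σ s, X s) : ℝ) with hN
  have hN0 : 0 ≤ N := by positivity
  set lam : ℝ := t / (9 * N) with hlam
  have hlam0 : 0 ≤ lam := by positivity
  have h1 := con_cf (S := S) (X := X) lam F hLip
  have h2 : (A.card : ℝ) ≤ ∑ y, Real.exp (-(lam * F y)) := by
    calc (A.card : ℝ) = ∑ _y ∈ A, (1 : ℝ) := by simp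
      _ ≤ ∑ y ∈ A, Real.exp (-(lam * F y)) := Finset.sum_le_sum fun y hy => by
          apply Real.one_le_exp
          have := hF0 y hy
          nlinarith
      _ ≤ ∑ y, Real.exp (-(lam * F y)) :=
          Finset.sum_le_sum_of_subset_of_nonneg (Finset.subset_univ _)
            fun y _ _ => (Real.exp_pos _).le
  have h3 : (B.card : ℝ) * Real.exp (lam * t) ≤ ∑ y, Real.exp (lam * F y) := by
    calc (B.card : ℝ) * Real.exp (lam * t) = ∑ _y ∈ B, Real.exp (lam * t) := by simp
      _ ≤ ∑ y ∈ B, Real.exp (lam * F y) := Finset.sum_le_sum fun y hy => by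
          apply Real.exp_le_exp.2
          exact mul_le_mul_of_nonneg_left (hFt y hy) hlam0
      _ ≤ ∑ y, Real.exp (lam * F y) :=
          Finset.sum_le_sum_of_subset_of_nonneg (Finset.subset_univ _)
            fun y _ _ => (Real.exp_pos _).le
  have hcard : (Fintype.card (Cf X) : ℝ) = ∏ s, ((Fintype.card (X s)).factorial : ℝ) := by
    rw [Fintype.card_pi]
    push_cast
    refine Finset.prod_congr rfl fun s _ => ?_
    rw [Fintype.card_perm]
  rw [hcard] at h1
  have hsum : ∑ s, (9 * (Fintype.card (X s) : ℝ) / 2) = 9 / 2 * N := by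
    rw [hN, Fintype.card_sigma]
    push_cast
    rw [Finset.mul_sum]
    refine Finset.sum_congr rfl fun s _ => ?_
    ring
  rw [hsum] at h1
  have h4 : (A.card : ℝ) * ((B.card : ℝ) * Real.exp (lam * t)) ≤
      (∏ s, ((Fintype.card (X s)).factorial : ℝ)) ^ 2 *
        Real.exp (lam ^ 2 * (9 / 2 * N)) := by
    refine le_trans ?_ h1
    rw [mul_comm (∑ y, Real.exp (lam * F y))]
    exact mul_le_mul h2 h3 (by positivity) ((Nat.cast_nonneg _).trans h2)
  have h5 : lam ^ 2 * (9 / 2 * N) = -(t ^ 2 / (18 * N)) + lam * t := by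
    rw [hlam]
    rcases hN0.eq_or_lt with h7 | h7
    · rw [← h7]
      simp
    · field_simp
      ring
  rw [h5, Real.exp_add, ← mul_assoc, ← mul_assoc] at h4
  exact le_of_mul_le_mul_right h4 (Real.exp_pos _)

end Pool.Agent.L0h72.KC
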