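import Pool.Agent.L0h98.KC.Def
import Pool.Agent.N565.KL_SPA2

/-!
# Project KC, SPAR: small sets of rows and columns span few entries
-/

set_option autoImplicit false

namespace Pool.Agent.L0h72.KC

open Finset Classical Pool.Agent.L0h98.KC
open Pool.Agent.N404.LF (cnt)

/-! ### Permutations which map `S` into `T` -/

section perm

variable {Y : Type} [Fintype Y] [DecidableEq Y]

/-- the permutations which map `S` into `T` -/
noncomputable def mpY (S T : Finset Y) : Finset (Equiv.Perm Y) :=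
  univ.filter fun π => ∀ a ∈ S, π a ∈ T

lemma mem_mpY (S T : Finset Y) (π : Equiv.Perm Y) : π ∈ mpY S T ↔ ∀ a ∈ S, π a ∈ T := by
  unfold mpY
  rw [mem_filter]
  simp

lemma pre_cardY (S T : Finset Y) (π : Equiv.Perm Y) (h : π ∈ mpY S T) :
    (univ.filter fun y => y ∉ S ∧ π y ∈ T).card = T.card - S.card := by
  have h1 : (univ.filter fun y => y ∉ S ∧ π y ∈ T) = (T.map π.symm.toEmbedding) \ S := by
    ext y
    simp only [mem_filter, mem_univ, true_and, mem_sdiff, mem_map_equiv, Equiv.symm_symm]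
    tauto
  rw [h1, card_sdiff_of_subset, card_map]
  intro a ha
  rw [mem_map_equiv, Equiv.symm_symm]
  exact (mem_mpY _ _ _).1 h a ha

lemma stepY (S T : Finset Y) (x : Y) (hx : x ∉ S) :
    (Fintype.card Y - S.card) * (mpY (insert x S) T).card ≤
      (T.card - S.card) * (mpY S T).card := by
  have h1 : ((mpY (insert x S) T) ×ˢ Sᶜ).card ≤
      ((mpY S T).sigma fun π => univ.filter fun y => y ∉ S ∧ π y ∈ T).card := by
    apply card_le_card_of_injOn
      (fun p => (⟨p.1 * Equiv.swap x p.2, p.2⟩ : (_ : Equiv.Perm Y) × Y))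
    · rintro ⟨π, y⟩ hp
      rw [mem_coe, mem_product] at hp
      obtain ⟨hp1, hp2⟩ := hp
      have hy : y ∉ S := mem_compl.1 hp2
      have hπ := (mem_mpY _ _ _).1 hp1
      rw [mem_coe, mem_sigma]
      refine ⟨(mem_mpY _ _ _).2 fun a ha => ?_, mem_filter.2 ⟨mem_univ _, hy, ?_⟩⟩
      · have ha1 : a ≠ x := fun h => hx (h ▸ ha)
        have ha2 : a ≠ y := fun h => hy (h ▸ ha)
        show (π * Equiv.swap x y) a ∈ T
        rw [Equiv.Perm.mul_apply, Equiv.swap_apply_of_ne_of_ne ha1 ha2]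
        exact hπ a (mem_insert_of_mem ha)
      · show (π * Equiv.swap x y) y ∈ T
        rw [Equiv.Perm.mul_apply, Equiv.swap_apply_right]
        exact hπ x (mem_insert_self _ _)
    · rintro ⟨π, y⟩ _ ⟨π', y'⟩ _ h
      simp only [Sigma.mk.injEq, heq_eq_eq] at h
      obtain ⟨h1, h2⟩ := h
      subst h2
      rw [mul_left_inj] at h1
      rw [h1]
  rw [card_product, card_compl, card_sigma,
    sum_congr rfl (fun π hπ => pre_cardY S T π hπ), sum_const, smul_eq_mul] at h1
  calc (Fintype.card Y - S.card) * (mpY (insert x S) T).card =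
        (mpY (insert x S) T).card * (Fintype.card Y - S.card) := mul_comm _ _
    _ ≤ (mpY S T).card * (T.card - S.card) := h1
    _ = _ := mul_comm _ _

lemma mp_cardY (S T : Finset Y) :
    Fintype.card Y ^ S.card * (mpY S T).card ≤ T.card ^ S.card * (Fintype.card Y).factorial := by
  induction S using Finset.induction_on with
  | empty =>
    have h1 : (mpY (∅ : Finset Y) T).card ≤ (Fintype.card Y).factorial := by
      calc (mpY (∅ : Finset Y) T).card ≤ (univ : Finset (Equiv.Perm Y)).card :=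
            card_le_card (filter_subset _ _)
        _ = (Fintype.card Y).factorial := by rw [card_univ, Fintype.card_perm]
    simpa using h1
  | insert x S hx ih =>
    rw [card_insert_of_notMem hx]
    have hSN : S.card < Fintype.card Y := by
      have h1 : (insert x S).card ≤ Fintype.card Y := by
        simpa using card_le_univ (insert x S)
      rw [card_insert_of_notMem hx] at h1
      omega
    have hT : T.card ≤ Fintype.card Y := by simpa using card_le_univ T
    have h1 := stepY S T x hx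
    set N := Fintype.card Y with hN
    have h2 : N * (mpY (insert x S) T).card ≤ T.card * (mpY S T).card := by
      have h3 : N * (T.card - S.card) ≤ T.card * (N - S.card) := by
        rw [Nat.mul_sub, Nat.mul_sub, mul_comm T.card N]
        exact Nat.sub_le_sub_left (Nat.mul_le_mul_right _ hT) _
      have h4 : (N - S.card) * (N * (mpY (insert x S) T).card) ≤
          (N - S.card) * (T.card * (mpY S T).card) := by
        calc (N - S.card) * (N * (mpY (insert x S) T).card) =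
              N * ((N - S.card) * (mpY (insert x S) T).card) := by ring
          _ ≤ N * ((T.card - S.card) * (mpY S T).card) := Nat.mul_le_mul_left _ h1
          _ = (N * (T.card - S.card)) * (mpY S T).card := by ring
          _ ≤ (T.card * (N - S.card)) * (mpY S T).card := Nat.mul_le_mul_right _ h3
          _ = _ := by ring
      exact Nat.le_of_mul_le_mul_left h4 (by omega)
    calc N ^ (S.card + 1) * (mpY (insert x S) T).card =
          N ^ S.card * (N * (mpY (insert x S) T).card) := by ring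
      _ ≤ N ^ S.card * (T.card * (mpY S T).card) := Nat.mul_le_mul_left _ h2
      _ = T.card * (N ^ S.card * (mpY S T).card) := by ring
      _ ≤ T.card * (T.card ^ S.card * N.factorial) := Nat.mul_le_mul_left _ ih
      _ = _ := by ring

end perm

/-! ### Families -/

section

variable {S R V : Type} [Fintype S] [DecidableEq S] {X : S → Type} [∀ s, Fintype (X s)]
  [∀ s, DecidableEq (X s)]

/-- the families which map `F` into `T` -/
noncomputable def famX (F : Finset (Σ s, X s)) (T : ∀ s, Finset (X s)) : Finset (Cf X) :=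
  univ.filter fun π => ∀ q ∈ F, π q.1 q.2 ∈ T q.1

lemma mem_famX (F : Finset (Σ s, X s)) (T : ∀ s, Finset (X s)) (π : Cf X) :
    π ∈ famX F T ↔ ∀ q ∈ F, π q.1 q.2 ∈ T q.1 := by
  unfold famX
  rw [mem_filter]
  simp

lemma fam_cardX (N D t : ℕ) (hN : ∀ s, N ≤ D * Fintype.card (X s)) (F : Finset (Σ s, X s))
    (T : ∀ s, Finset (X s)) (hT : ∀ s, (T s).card ≤ t) :
    N ^ F.card * (famX F T).card ≤
      (D * t) ^ F.card * ∏ s, (Fintype.card (X s)).factorial := by
  set Fc : ∀ s, Finset (X s) := fun s => univ.filter fun x => (⟨s, x⟩ : Σ s, X s) ∈ F with hFc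
  have h1 : famX F T = Fintype.piFinset fun s => mpY (Fc s) (T s) := by
    ext π
    rw [mem_famX, Fintype.mem_piFinset]
    simp only [mem_mpY, hFc, mem_filter, mem_univ, true_and, Sigma.forall]
  have h2 : F.card = ∑ s, (Fc s).card := by
    rw [card_eq_sum_card_fiberwise (f := Sigma.fst) (t := univ) (fun _ _ => mem_coe.2 (mem_univ _))]
    refine sum_congr rfl fun i _ => ?_
    symm
    refine card_bij (fun a _ => (⟨i, a⟩ : Σ s, X s)) ?_ ?_ ?_
    · intro a h
      exact mem_filter.2 ⟨(mem_filter.1 h).2, rfl⟩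
    · intro a _ b _ h
      simpa using h
    · rintro ⟨j, a⟩ h
      rw [mem_filter] at h
      obtain ⟨h3, h4⟩ := h
      dsimp only at h4
      subst h4
      exact ⟨a, mem_filter.2 ⟨mem_univ _, h3⟩, rfl⟩
  rw [h1, Fintype.card_piFinset, h2, ← prod_pow_eq_pow_sum, ← prod_pow_eq_pow_sum,
    ← prod_mul_distrib, ← prod_mul_distrib]
  refine prod_le_prod' fun i _ => ?_
  calc N ^ (Fc i).card * (mpY (Fc i) (T i)).card
      ≤ (D * Fintype.card (X i)) ^ (Fc i).card * (mpY (Fc i) (T i)).card :=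
        Nat.mul_le_mul_right _ (Nat.pow_le_pow_left (hN i) _)
    _ = D ^ (Fc i).card * (Fintype.card (X i) ^ (Fc i).card * (mpY (Fc i) (T i)).card) := by
        rw [mul_pow]
        ring
    _ ≤ D ^ (Fc i).card * ((T i).card ^ (Fc i).card * (Fintype.card (X i)).factorial) :=
        Nat.mul_le_mul_left _ (mp_cardY _ _)
    _ ≤ D ^ (Fc i).card * (t ^ (Fc i).card * (Fintype.card (X i)).factorial) :=
        Nat.mul_le_mul_left _ (Nat.mul_le_mul_right _ (Nat.pow_le_pow_left (hT i) _))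
    _ = _ := by
        rw [mul_pow]
        ring

/-- the number of the entries between the rows and columns of `U` -/
noncomputable def EU (a : ∀ s, X s → R) (b : ∀ s, X s → V) (π : Cf X)
    (U : Finset ((Σ s, X s) ⊕ (Σ s, X s))) : ℕ :=
  (univ.filter fun q : Σ s, X s => a q.1 q.2 ∈ U.toLeft.image (fun p => a p.1 p.2) ∧
    b q.1 (π q.1 q.2) ∈ U.toRight.image (fun p => b p.1 p.2)).card

omit [DecidableEq S] [∀ s, DecidableEq (X s)] in
lemma pre_le {W : Type} (Δ : ℕ) (a : ∀ s, X s → W) (ha : ∀ i, ∑ s, cnt (a s) i ≤ Δ)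
    (P : Finset (Σ s, X s)) :
    (univ.filter fun q : Σ s, X s => a q.1 q.2 ∈ P.image (fun p => a p.1 p.2)).card ≤
      Δ * P.card := by
  have h1 : (univ.filter fun q : Σ s, X s => a q.1 q.2 ∈ P.image (fun p => a p.1 p.2)) ⊆
      P.biUnion fun p => univ.filter fun q : Σ s, X s => a q.1 q.2 = a p.1 p.2 := by
    intro q hq
    rw [mem_filter, mem_image] at hq
    obtain ⟨_, p, hp, hpq⟩ := hq
    rw [mem_biUnion]
    exact ⟨p, hp, mem_filter.2 ⟨mem_univ _, hpq.symm⟩⟩
  refine (card_le_card h1).trans ?_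
  rw [mul_comm]
  refine card_biUnion_le_card_mul _ _ _ fun p _ => ?_
  refine le_trans (le_of_eq ?_) (ha (a p.1 p.2))
  rw [Finset.card_filter, Fintype.sum_sigma]
  refine Finset.sum_congr rfl fun i _ => ?_
  unfold cnt
  rw [Finset.card_filter]

/-- one set `U` -/
lemma one_setX (Δ N D : ℕ) (a : ∀ s, X s → R) (b : ∀ s, X s → V)
    (ha : ∀ i, ∑ s, cnt (a s) i ≤ Δ) (hb : ∀ v, ∑ s, cnt (b s) v ≤ Δ)
    (hN : ∀ s, N ≤ D * Fintype.card (X s)) (U : Finset ((Σ s, X s) ⊕ (Σ s, X s))) (e : ℕ) :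
    N ^ e * (univ.filter fun π : Cf X => e ≤ EU a b π U).card ≤
    (2 ^ Δ) ^ U.card * (D * (Δ * U.card)) ^ e * ∏ s, (Fintype.card (X s)).factorial := by
  set E : Finset (Σ s, X s) := univ.filter fun q : Σ s, X s =>
    a q.1 q.2 ∈ U.toLeft.image (fun p => a p.1 p.2) with hE
  have hEc : E.card ≤ Δ * U.card :=
    (pre_le Δ a ha U.toLeft).trans (Nat.mul_le_mul_left _ (card_toLeft_le))
  set T : ∀ s, Finset (X s) := fun s => univ.filter fun x : X s =>
    b s x ∈ U.toRight.image (fun p => b p.1 p.2) with hT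
  have hTc : ∀ s, (T s).card ≤ Δ * U.card := by
    intro s
    refine le_trans ?_ ((pre_le Δ b hb U.toRight).trans (Nat.mul_le_mul_left _ (card_toRight_le)))
    refine card_le_card_of_injOn (fun x => (⟨s, x⟩ : Σ s, X s)) ?_ ?_
    · intro x hx
      exact mem_coe.2 (mem_filter.2 ⟨mem_univ _, (mem_filter.1 (mem_coe.1 hx)).2⟩)
    · intro x _ y _ h
      simpa using h
  have h1 : (univ.filter fun π : Cf X => e ≤ EU a b π U) ⊆
      (powersetCard e E).biUnion fun F => famX F T := by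
    intro π hπ
    have hπ' := (mem_filter.1 hπ).2
    unfold EU at hπ'
    obtain ⟨F, hF, hFc⟩ := exists_subset_card_eq hπ'
    rw [mem_biUnion]
    refine ⟨F, mem_powersetCard.2 ⟨fun p hp => ?_, hFc⟩, (mem_famX _ _ _).2 fun p hp => ?_⟩
    · exact mem_filter.2 ⟨mem_univ _, (mem_filter.1 (hF hp)).2.1⟩
    · exact mem_filter.2 ⟨mem_univ _, (mem_filter.1 (hF hp)).2.2⟩
  have h2 : (powersetCard e E).card ≤ (2 ^ Δ) ^ U.card := by
    calc (powersetCard e E).card ≤ E.powerset.card :=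
          card_le_card fun F hF => mem_powerset.2 (mem_powersetCard.1 hF).1
      _ = 2 ^ E.card := card_powerset _
      _ ≤ 2 ^ (Δ * U.card) := Nat.pow_le_pow_right (by norm_num) hEc
      _ = _ := pow_mul _ _ _
  calc N ^ e * (univ.filter fun π : Cf X => e ≤ EU a b π U).card
      ≤ N ^ e * ∑ F ∈ powersetCard e E, (famX F T).card :=
        Nat.mul_le_mul_left _ ((card_le_card h1).trans card_biUnion_le)
    _ = ∑ F ∈ powersetCard e E, N ^ e * (famX F T).card := mul_sum _ _ _
    _ ≤ ∑ F ∈ powersetCard e E, (D * (Δ * U.card)) ^ e *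
          ∏ s, (Fintype.card (X s)).factorial := by
        refine sum_le_sum fun F hF => ?_
        have h3 := fam_cardX N D (Δ * U.card) hN F T hTc
        rwa [(mem_powersetCard.1 hF).2] at h3
    _ = (powersetCard e E).card * ((D * (Δ * U.card)) ^ e *
          ∏ s, (Fintype.card (X s)).factorial) := by
        rw [sum_const, smul_eq_mul]
    _ ≤ (2 ^ Δ) ^ U.card * ((D * (Δ * U.card)) ^ e *
          ∏ s, (Fintype.card (X s)).factorial) :=
        Nat.mul_le_mul_right _ h2
    _ = _ := by ring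

/-- the sets with `u` elements -/
lemma sizeX (Δ N D : ℕ) (hN0 : 0 < N) (hNc : Fintype.card (Σ s, X s) = N) (a : ∀ s, X s → R)
    (b : ∀ s, X s → V)
    (ha : ∀ i, ∑ s, cnt (a s) i ≤ Δ) (hb : ∀ v, ∑ s, cnt (b s) v ≤ Δ)
    (hN : ∀ s, N ≤ D * Fintype.card (X s)) (u r : ℕ) :
    N ^ r * (univ.filter fun π : Cf X => ∃ U : Finset ((Σ s, X s) ⊕ (Σ s, X s)),
      U.card = u ∧ u + r ≤ EU a b π U).card ≤
    (6 * 2 ^ Δ) ^ u * (D * Δ) ^ (u + r) * u ^ r * ∏ s, (Fintype.card (X s)).factorial := by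
  set B := (univ.filter fun π : Cf X => ∃ U : Finset ((Σ s, X s) ⊕ (Σ s, X s)),
      U.card = u ∧ u + r ≤ EU a b π U).card with hB
  set M := ∏ s, (Fintype.card (X s)).factorial with hM
  have h1 : B ≤ ∑ U ∈ powersetCard u (univ : Finset ((Σ s, X s) ⊕ (Σ s, X s))),
      (univ.filter fun π : Cf X => u + r ≤ EU a b π U).card := by
    rw [hB]
    refine (card_le_card ?_).trans card_biUnion_le
    intro π hπ
    obtain ⟨U, hU, hU2⟩ := (mem_filter.1 hπ).2
    rw [mem_biUnion]
    exact ⟨U, mem_powersetCard.2 ⟨subset_univ _, hU⟩, mem_filter.2 ⟨mem_univ _, hU2⟩⟩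
  have h2 : N ^ (u + r) * B ≤ (2 * N).choose u *
      ((2 ^ Δ) ^ u * (D * (Δ * u)) ^ (u + r) * M) := by
    calc N ^ (u + r) * B ≤ N ^ (u + r) *
        ∑ U ∈ powersetCard u (univ : Finset ((Σ s, X s) ⊕ (Σ s, X s))),
        (univ.filter fun π : Cf X => u + r ≤ EU a b π U).card :=
          Nat.mul_le_mul_left _ h1
      _ = ∑ U ∈ powersetCard u (univ : Finset ((Σ s, X s) ⊕ (Σ s, X s))), N ^ (u + r) *
        (univ.filter fun π : Cf X => u + r ≤ EU a b π U).card :=
          mul_sum _ _ _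
      _ ≤ ∑ U ∈ powersetCard u (univ : Finset ((Σ s, X s) ⊕ (Σ s, X s))),
            ((2 ^ Δ) ^ u * (D * (Δ * u)) ^ (u + r) * M) := by
          refine sum_le_sum fun U hU => ?_
          have h3 := one_setX Δ N D a b ha hb hN U (u + r)
          rw [(mem_powersetCard.1 hU).2] at h3
          exact h3
      _ = _ := by
          rw [sum_const, smul_eq_mul, card_powersetCard, card_univ, Fintype.card_sum, hNc, two_mul]
  have h3 : u.factorial * (2 * N).choose u ≤ (2 * N) ^ u := by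
    rw [← Nat.descFactorial_eq_factorial_mul_choose]
    exact Nat.descFactorial_le_pow _ _
  have h4 : N ^ u * (N ^ r * B) ≤
      N ^ u * ((6 * 2 ^ Δ) ^ u * (D * Δ) ^ (u + r) * u ^ r * M) := by
    calc N ^ u * (N ^ r * B) = N ^ (u + r) * B := by ring
      _ ≤ (2 * N).choose u * ((2 ^ Δ) ^ u * (D * (Δ * u)) ^ (u + r) * M) := h2
      _ = (2 * N).choose u * u ^ u * ((2 ^ Δ) ^ u * (D * Δ) ^ (u + r) * u ^ r * M) := by
          rw [← mul_assoc D, mul_pow (D * Δ) u (u + r), pow_add u u r]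
          ring
      _ ≤ (2 * N).choose u * (3 ^ u * u.factorial) *
            ((2 ^ Δ) ^ u * (D * Δ) ^ (u + r) * u ^ r * M) :=
          Nat.mul_le_mul_right _ (Nat.mul_le_mul_left _ (Pool.Agent.N97.LF.pow_self_le u))
      _ = (u.factorial * (2 * N).choose u) *
            (3 ^ u * ((2 ^ Δ) ^ u * (D * Δ) ^ (u + r) * u ^ r * M)) := by ring
      _ ≤ (2 * N) ^ u * (3 ^ u * ((2 ^ Δ) ^ u * (D * Δ) ^ (u + r) * u ^ r * M)) :=
          Nat.mul_le_mul_right _ h3
      _ = _ := by
          rw [mul_pow 2 N u, mul_pow 6 _ u, show (6 : ℕ) = 2 * 3 by norm_num, mul_pow 2 3 u]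
          ring
  exact Nat.le_of_mul_le_mul_left h4 (pow_pos hN0 _)

end

/-- **SPAR** -/
theorem t_SPAR : S_SPAR := by
  intro S _ _ Δ δ hδ
  obtain ⟨D, hD⟩ := exists_nat_ge (1 / δ)
  set K : ℕ := 6 * 2 ^ Δ * (D * Δ + 1) with hK
  refine ⟨10 * K ^ 6, fun R V _ _ X _ _ a b ha hb hδX m hNm => ?_⟩
  set N := Fintype.card (Σ s, X s) with hNdef
  rcases Nat.eq_zero_or_pos N with h0 | hN0
  · rw [h0, zero_mul]
    exact Nat.zero_le _
  have hN : ∀ s, N ≤ D * Fintype.card (X s) := by
    intro s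
    have h1 := hδX s
    have h2 : (N : ℝ) ≤ D * Fintype.card (X s) := by
      have h3 : (N : ℝ) ≤ 1 / δ * Fintype.card (X s) := by
        rw [div_mul_eq_mul_div, one_mul, le_div_iff₀ hδ]
        linarith
      exact h3.trans (mul_le_mul_of_nonneg_right hD (Nat.cast_nonneg _))
    exact_mod_cast h2
  set M := ∏ s, (Fintype.card (X s)).factorial with hM
  set B : ℕ → ℕ := fun u => (univ.filter fun π : Cf X =>
    ∃ U : Finset ((Σ s, X s) ⊕ (Σ s, X s)), U.card = u ∧ u + (u + 4) / 5 ≤ EU a b π U).card with hB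
  have h1 : (univ.filter fun π : Cf X => ∃ (A : Finset R) (B : Finset V),
      A.Nonempty ∧ A.card + B.card ≤ m ∧ 6 * (A.card + B.card) ≤ 5 *
        (univ.filter fun q : Σ s, X s => a q.1 q.2 ∈ A ∧ b q.1 (π q.1 q.2) ∈ B).card).card ≤
      ∑ j ∈ range m, B (j + 1) := by
    refine (card_le_card (t := (range m).biUnion fun j =>
      (univ.filter fun π : Cf X =>
        ∃ U : Finset ((Σ s, X s) ⊕ (Σ s, X s)), U.card = j + 1 ∧
          j + 1 + (j + 1 + 4) / 5 ≤ EU a b π U)) ?_).trans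
      card_biUnion_le
    intro π hπ
    obtain ⟨A, B', hA, hAB, h6⟩ := (mem_filter.1 hπ).2
    obtain ⟨P, hP1, hP2, hP3⟩ := exists_subset_injOn_image_eq_of_surjOn
      (f := fun p : Σ s, X s => a p.1 p.2) (univ.filter fun q : Σ s, X s => a q.1 q.2 ∈ A)
      ((univ.filter fun q : Σ s, X s => a q.1 q.2 ∈ A).image (fun p : Σ s, X s => a p.1 p.2))
      (by rw [coe_image]; exact Set.surjOn_image _ _)
    obtain ⟨Q, hQ1, hQ2, hQ3⟩ := exists_subset_injOn_image_eq_of_surjOn
      (f := fun p : Σ s, X s => b p.1 p.2) (univ.filter fun q : Σ s, X s => b q.1 q.2 ∈ B')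
      ((univ.filter fun q : Σ s, X s => b q.1 q.2 ∈ B').image (fun p : Σ s, X s => b p.1 p.2))
      (by rw [coe_image]; exact Set.surjOn_image _ _)
    have hPc : P.card ≤ A.card := by
      rw [← card_image_of_injOn hP2, hP3]
      refine card_le_card fun x hx => ?_
      obtain ⟨q, hq, rfl⟩ := mem_image.1 hx
      exact (mem_filter.1 hq).2
    have hQc : Q.card ≤ B'.card := by
      rw [← card_image_of_injOn hQ2, hQ3]
      refine card_le_card fun x hx => ?_
      obtain ⟨q, hq, rfl⟩ := mem_image.1 hx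
      exact (mem_filter.1 hq).2
    have hmA : ∀ q : Σ s, X s, a q.1 q.2 ∈ P.image (fun p : Σ s, X s => a p.1 p.2) ↔
        a q.1 q.2 ∈ A := by
      intro q
      rw [hP3, mem_image]
      constructor
      · rintro ⟨p, hp, hpq⟩
        rw [← hpq]
        exact (mem_filter.1 hp).2
      · intro h
        exact ⟨q, mem_filter.2 ⟨mem_univ _, h⟩, rfl⟩
    have hmB : ∀ q : Σ s, X s, b q.1 q.2 ∈ Q.image (fun p : Σ s, X s => b p.1 p.2) ↔
        b q.1 q.2 ∈ B' := by
      intro q
      rw [hQ3, mem_image]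
      constructor
      · rintro ⟨p, hp, hpq⟩
        rw [← hpq]
        exact (mem_filter.1 hp).2
      · intro h
        exact ⟨q, mem_filter.2 ⟨mem_univ _, h⟩, rfl⟩
    have hEU : EU a b π (P.disjSum Q) =
        (univ.filter fun q : Σ s, X s => a q.1 q.2 ∈ A ∧ b q.1 (π q.1 q.2) ∈ B').card := by
      unfold EU
      rw [toLeft_disjSum, toRight_disjSum]
      congr 1
      ext q
      rw [mem_filter, mem_filter, hmA q, hmB ⟨q.1, π q.1 q.2⟩]
    rw [← hEU] at h6
    have hA0 := card_pos.2 hA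
    have hU : (P.disjSum Q).card = P.card + Q.card := card_disjSum _ _
    have hU0 : 0 < P.card := by
      by_contra hc
      have hP0 : P = ∅ := card_eq_zero.1 (by omega)
      have h0 : EU a b π (P.disjSum Q) = 0 := by
        unfold EU
        rw [toLeft_disjSum, hP0]
        simp
      omega
    rw [mem_biUnion]
    exact ⟨(P.disjSum Q).card - 1, mem_range.2 (by omega),
      mem_filter.2 ⟨mem_univ _, P.disjSum Q, by omega, by omega⟩⟩
  have h2 : ∀ j < m, 2 ^ (j / 5) * (N * B (j + 1)) ≤ K ^ 6 * m * M := by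
    intro j hj
    have hr : (j + 1 + 4) / 5 = j / 5 + 1 := by omega
    have h3 := sizeX Δ N D hN0 rfl a b ha hb hN (j + 1) ((j + 1 + 4) / 5)
    have hB1 : B (j + 1) = (univ.filter fun π : Cf X =>
      ∃ U : Finset ((Σ s, X s) ⊕ (Σ s, X s)), U.card = j + 1 ∧
        j + 1 + (j + 1 + 4) / 5 ≤ EU a b π U).card := rfl
    rw [← hB1, ← hM] at h3
    rw [hr] at h3
    have hK0 : 0 < 2 ^ Δ := by positivity
    have hK1 : 1 ≤ K := by
      rw [hK]
      exact Nat.one_le_iff_ne_zero.2 (by positivity)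
    have hKD : D * Δ ≤ K := by
      rw [hK]
      nlinarith [Nat.zero_le (D * Δ)]
    have hKE : 6 * 2 ^ Δ * (D * Δ) ≤ K := by
      rw [hK]
      exact Nat.mul_le_mul_left _ (Nat.le_succ _)
    have h4 : (6 * 2 ^ Δ) ^ (j + 1) * (D * Δ) ^ (j + 1 + (j / 5 + 1)) * (j + 1) ^ (j / 5 + 1) ≤
        (K ^ 6 * m) * (K ^ 6 * m) ^ (j / 5) := by
      calc (6 * 2 ^ Δ) ^ (j + 1) * (D * Δ) ^ (j + 1 + (j / 5 + 1)) * (j + 1) ^ (j / 5 + 1)
          = (6 * 2 ^ Δ * (D * Δ)) ^ (j + 1) * (D * Δ) ^ (j / 5 + 1) * (j + 1) ^ (j / 5 + 1) := by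
            rw [pow_add (D * Δ), mul_pow (6 * 2 ^ Δ) (D * Δ)]
            ring
        _ ≤ K ^ (j + 1) * K ^ (j / 5 + 1) * m ^ (j / 5 + 1) :=
            Nat.mul_le_mul (Nat.mul_le_mul (Nat.pow_le_pow_left hKE _)
              (Nat.pow_le_pow_left hKD _)) (Nat.pow_le_pow_left hj _)
        _ = K ^ (j + 1 + (j / 5 + 1)) * m ^ (j / 5 + 1) := by rw [← pow_add]
        _ ≤ K ^ (6 * (j / 5 + 1)) * m ^ (j / 5 + 1) :=
            Nat.mul_le_mul_right _ (Nat.pow_le_pow_right hK1 (by omega))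
        _ = (K ^ 6 * m) ^ (j / 5 + 1) := by rw [pow_mul K 6, mul_pow (K ^ 6) m]
        _ = _ := by ring
    have h5 : N ^ (j / 5) * (2 ^ (j / 5) * (N * B (j + 1))) ≤ N ^ (j / 5) * (K ^ 6 * m * M) := by
      calc N ^ (j / 5) * (2 ^ (j / 5) * (N * B (j + 1)))
          = 2 ^ (j / 5) * (N ^ (j / 5 + 1) * B (j + 1)) := by ring
        _ ≤ 2 ^ (j / 5) * ((6 * 2 ^ Δ) ^ (j + 1) * (D * Δ) ^ (j + 1 + (j / 5 + 1)) *
              (j + 1) ^ (j / 5 + 1) * M) := Nat.mul_le_mul_left _ h3
        _ ≤ 2 ^ (j / 5) * ((K ^ 6 * m) * (K ^ 6 * m) ^ (j / 5) * M) :=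
            Nat.mul_le_mul_left _ (Nat.mul_le_mul_right _ h4)
        _ = (2 * (K ^ 6 * m)) ^ (j / 5) * (K ^ 6 * m * M) := by
            rw [mul_pow 2 (K ^ 6 * m)]
            ring
        _ ≤ N ^ (j / 5) * (K ^ 6 * m * M) := by
            refine Nat.mul_le_mul_right _ (Nat.pow_le_pow_left ?_ _)
            refine le_trans ?_ hNm
            rw [mul_assoc 10]
            omega
    exact Nat.le_of_mul_le_mul_left h5 (pow_pos hN0 _)
  clear_value B M K
  have h3 : (N : ℝ) * ∑ j ∈ range m, (B (j + 1) : ℝ) ≤ 10 * K ^ 6 * m * M := by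
    rw [mul_sum]
    calc ∑ j ∈ range m, (N : ℝ) * B (j + 1)
        ≤ ∑ j ∈ range m, ((K : ℝ) ^ 6 * m * M) * (1 / 2) ^ (j / 5) := by
          refine sum_le_sum fun j hj => ?_
          have h4 : (2 : ℝ) ^ (j / 5) * (N * B (j + 1)) ≤ K ^ 6 * m * M := by
            exact_mod_cast h2 j (mem_range.1 hj)
          have h5 : (0 : ℝ) < 2 ^ (j / 5) := by positivity
          rw [one_div, inv_pow, ← div_eq_mul_inv, le_div_iff₀ h5]
          linarith
      _ = ((K : ℝ) ^ 6 * m * M) * ∑ j ∈ range m, (1 / 2 : ℝ) ^ (j / 5) := by rw [mul_sum]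
      _ ≤ ((K : ℝ) ^ 6 * m * M) * 10 :=
          mul_le_mul_of_nonneg_left (Pool.Agent.N565.KLSPA2.sum10 m) (by positivity)
      _ = 10 * K ^ 6 * m * M := by ring
  have h4 : N * ∑ j ∈ range m, B (j + 1) ≤ 10 * K ^ 6 * m * M := by exact_mod_cast h3
  exact (Nat.mul_le_mul_left _ h1).trans h4

end Pool.Agent.L0h72.KC
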